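import Pool.Agent.W734.TWB.Stms

/-!
# TWB-HARDY: Hardy's inequality in three dimensions
-/

set_option autoImplicit false

open MeasureTheory Set Filter Metric Topology
open scoped ENNReal

namespace Pool.Agent.W705.TWB

open Pool.Agent.W734.TWB

/-- the basis vectors -/
noncomputable abbrev bv (k : Fin 3) : E3 := EuclideanSpace.single k (1 : ℝ)

theorem norm_bv (k : Fin 3) : ‖bv k‖ = 1 := by simp [bv]

/-- the vector field -/
noncomputable def XX (e : ℝ) (k : Fin 3) (x : E3) : ℝ := x k * (‖x‖ ^ 2 + e)⁻¹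

theorem den_pos {e : ℝ} (he : 0 < e) (x : E3) : 0 < ‖x‖ ^ 2 + e := by positivity

theorem XX_contDiff {e : ℝ} (he : 0 < e) (k : Fin 3) : ContDiff ℝ 1 (XX e k) := by
  unfold XX
  apply ContDiff.mul
  · exact (EuclideanSpace.proj k : E3 →L[ℝ] ℝ).contDiff
  · apply ContDiff.inv
    · exact (contDiff_norm_sq ℝ).add contDiff_const
    · intro x
      exact (den_pos he x).ne'

theorem XX_fderiv {e : ℝ} (he : 0 < e) (k : Fin 3) (x : E3) :
    fderiv ℝ (XX e k) x (bv k) =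
      (‖x‖ ^ 2 + e)⁻¹ - 2 * (x k) ^ 2 * ((‖x‖ ^ 2 + e)⁻¹) ^ 2 := by
  have hd := (den_pos he x).ne'
  have h1 : HasFDerivAt (fun y : E3 => y k) (EuclideanSpace.proj k : E3 →L[ℝ] ℝ) x :=
    (EuclideanSpace.proj k : E3 →L[ℝ] ℝ).hasFDerivAt
  have h2 : HasFDerivAt (fun y : E3 => ‖y‖ ^ 2 + e) (2 • (innerSL ℝ x)) x := by
    have := (hasFDerivAt_id x).norm_sq.add_const e
    exact this
  have h3 : HasFDerivAt (fun y : E3 => (‖y‖ ^ 2 + e)⁻¹)
      ((-((‖x‖ ^ 2 + e) ^ 2)⁻¹) • (2 • (innerSL ℝ x))) x :=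
    (hasDerivAt_inv hd).comp_hasFDerivAt x h2
  have h4 := h1.mul h3
  have h5 : HasFDerivAt (XX e k) _ x := h4
  rw [h5.fderiv]
  simp only [ContinuousLinearMap.add_apply, ContinuousLinearMap.smul_apply, smul_eq_mul,
    innerSL_apply_apply, nsmul_eq_mul]
  have h6 : (EuclideanSpace.proj k : E3 →L[ℝ] ℝ) (bv k) = 1 := by simp [bv]
  have h7 : inner ℝ x (bv k) = x k := by simp [bv, EuclideanSpace.inner_single_right]
  rw [h6, h7, inv_pow]
  push_cast
  ring

/-- the divergence is at least `1 / (|x|² + e)` -/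
theorem div_ge {e : ℝ} (he : 0 < e) (x : E3) :
    (‖x‖ ^ 2 + e)⁻¹ ≤ ∑ k : Fin 3, fderiv ℝ (XX e k) x (bv k) := by
  have h0 := den_pos he x
  have h1 : ∑ k : Fin 3, fderiv ℝ (XX e k) x (bv k) =
      3 * (‖x‖ ^ 2 + e)⁻¹ - 2 * ‖x‖ ^ 2 * ((‖x‖ ^ 2 + e)⁻¹) ^ 2 := by
    rw [EuclideanSpace.real_norm_sq_eq x]
    simp only [XX_fderiv he]
    rw [EuclideanSpace.real_norm_sq_eq x, Finset.sum_sub_distrib, Finset.sum_const, Finset.card_fin,
      ← Finset.sum_mul, ← Finset.mul_sum]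
    simp
  rw [h1]
  set d := (‖x‖ ^ 2 + e)⁻¹ with hd
  have hd0 : 0 < d := inv_pos.2 h0
  have h2 : ‖x‖ ^ 2 * d ≤ 1 := by
    have : (‖x‖ ^ 2 + e) * d = 1 := mul_inv_cancel₀ h0.ne'
    nlinarith
  nlinarith

/-- the function `|v|²` -/
noncomputable def ff (v : E3 → ℂ) (x : E3) : ℝ := ‖v x‖ ^ 2

theorem ff_contDiff {v : E3 → ℂ} (hv : ContDiff ℝ 1 v) : ContDiff ℝ 1 (ff v) := hv.norm_sq ℝ

theorem ff_fderiv {v : E3 → ℂ} (hv : ContDiff ℝ 1 v) (x h : E3) :
    |fderiv ℝ (ff v) x h| ≤ 2 * (‖v x‖ * ‖fderiv ℝ v x h‖) := by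
  have h1 : HasFDerivAt (ff v) (2 • (innerSL ℝ (v x)).comp (fderiv ℝ v x)) x :=
    ((hv.differentiable one_ne_zero) x).hasFDerivAt.norm_sq
  rw [h1.fderiv]
  simp only [ContinuousLinearMap.smul_apply, ContinuousLinearMap.comp_apply, innerSL_apply_apply,
    nsmul_eq_mul]
  rw [abs_mul]
  push_cast
  rw [abs_of_pos (by norm_num : (0 : ℝ) < 2)]
  gcongr
  exact abs_real_inner_le_norm _ _

theorem ff_supp {v : E3 → ℂ} (hc : HasCompactSupport v) : HasCompactSupport (ff v) := by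
  have := hc.comp_left (g := fun z : ℂ => ‖z‖ ^ 2) (by simp)
  exact this

theorem g3_cont {v : E3 → ℂ} (hv : ContDiff ℝ 1 v) : Continuous (g3 v) := by
  unfold g3
  refine continuous_finset_sum _ fun k _ => ?_
  exact (((hv.continuous_fderiv one_ne_zero).clm_apply continuous_const).norm).pow 2

theorem g3_nonneg (v : E3 → ℂ) (x : E3) : 0 ≤ g3 v x :=
  Finset.sum_nonneg fun k _ => by positivity

theorem g3_supp {v : E3 → ℂ} (hc : HasCompactSupport v) : HasCompactSupport (g3 v) := by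
  have h1 : HasCompactSupport (fderiv ℝ v) := hc.fderiv ℝ
  refine h1.mono ?_
  intro x hx
  rw [Function.mem_support] at hx ⊢
  intro h0
  apply hx
  unfold g3
  simp [h0]

/-- pointwise estimate of the right hand side -/
theorem pointwise {v : E3 → ℂ} (hv : ContDiff ℝ 1 v) {e : ℝ} (he : 0 < e) (x : E3) :
    -∑ k : Fin 3, fderiv ℝ (ff v) x (bv k) * XX e k x ≤
      (1 / 2) * (ff v x * (‖x‖ ^ 2 + e)⁻¹) + 2 * g3 v x := by
  have h0 := den_pos he x
  set d := (‖x‖ ^ 2 + e)⁻¹ with hd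
  have hd0 : 0 < d := inv_pos.2 h0
  have h1 : ‖x‖ ^ 2 * d ≤ 1 := by
    have : (‖x‖ ^ 2 + e) * d = 1 := mul_inv_cancel₀ h0.ne'
    nlinarith
  have h2 : ∀ k : Fin 3, -(fderiv ℝ (ff v) x (bv k) * XX e k x) ≤
      (1 / 2) * (ff v x * (x k) ^ 2 * d ^ 2) + 2 * ‖fderiv ℝ v x (bv k)‖ ^ 2 := by
    intro k
    have h3 := ff_fderiv hv x (bv k)
    have h4 : |XX e k x| = |x k| * d := by
      unfold XX
      rw [abs_mul, abs_of_pos hd0]
    have h5 : -(fderiv ℝ (ff v) x (bv k) * XX e k x) ≤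
        2 * (‖v x‖ * ‖fderiv ℝ v x (bv k)‖) * (|x k| * d) := by
      calc -(fderiv ℝ (ff v) x (bv k) * XX e k x) ≤ |fderiv ℝ (ff v) x (bv k) * XX e k x| :=
            neg_le_abs _
        _ = |fderiv ℝ (ff v) x (bv k)| * |XX e k x| := abs_mul _ _
        _ ≤ _ := by
            rw [h4]
            gcongr
    refine h5.trans ?_
    have h6 : (|x k|) ^ 2 = (x k) ^ 2 := sq_abs _
    unfold ff
    rw [← h6]
    nlinarith [sq_nonneg (‖v x‖ * (|x k| * d) - 2 * ‖fderiv ℝ v x (bv k)‖)]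
  have h7 : -∑ k : Fin 3, fderiv ℝ (ff v) x (bv k) * XX e k x ≤
      ∑ k : Fin 3, ((1 / 2) * (ff v x * (x k) ^ 2 * d ^ 2) + 2 * ‖fderiv ℝ v x (bv k)‖ ^ 2) := by
    rw [← Finset.sum_neg_distrib]
    exact Finset.sum_le_sum fun k _ => h2 k
  refine h7.trans ?_
  rw [Finset.sum_add_distrib, ← Finset.mul_sum, ← Finset.mul_sum]
  have h8 : ∑ k : Fin 3, ff v x * (x k) ^ 2 * d ^ 2 = ff v x * ‖x‖ ^ 2 * d ^ 2 := by
    rw [EuclideanSpace.real_norm_sq_eq x, Finset.mul_sum, Finset.sum_mul]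
  rw [h8]
  have h9 : ff v x * ‖x‖ ^ 2 * d ^ 2 ≤ ff v x * d := by
    have h10 : 0 ≤ ff v x := by unfold ff; positivity
    calc ff v x * ‖x‖ ^ 2 * d ^ 2 = (ff v x * d) * (‖x‖ ^ 2 * d) := by ring
      _ ≤ (ff v x * d) * 1 := by gcongr
      _ = _ := mul_one _
  unfold g3
  linarith

theorem hardy_e {v : E3 → ℂ} (hv : ContDiff ℝ 1 v) (hc : HasCompactSupport v) {e : ℝ}
    (he : 0 < e) :
    Integrable (fun x => ff v x * (‖x‖ ^ 2 + e)⁻¹) ∧
    ∫ x, ff v x * (‖x‖ ^ 2 + e)⁻¹ ≤ 4 * ∫ x, g3 v x := by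
  have hfc := (ff_contDiff hv)
  have hfs := ff_supp hc
  have hfcont : Continuous (ff v) := hfc.continuous
  have hden : Continuous (fun x : E3 => (‖x‖ ^ 2 + e)⁻¹) :=
    ((continuous_norm.pow 2).add continuous_const).inv₀ fun x => (den_pos he x).ne'
  have hI1 : Integrable (fun x => ff v x * (‖x‖ ^ 2 + e)⁻¹) :=
    (hfcont.mul hden).integrable_of_hasCompactSupport hfs.mul_right
  have hI2 : Integrable (g3 v) := (g3_cont hv).integrable_of_hasCompactSupport (g3_supp hc)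
  refine ⟨hI1, ?_⟩
  have hX : ∀ k, Continuous (XX e k) := fun k => (XX_contDiff he k).continuous
  have hX' : ∀ k, Continuous (fun x => fderiv ℝ (XX e k) x (bv k)) := fun k =>
    ((XX_contDiff he k).continuous_fderiv one_ne_zero).clm_apply continuous_const
  have hf' : ∀ k, Continuous (fun x => fderiv ℝ (ff v) x (bv k)) := fun k =>
    (hfc.continuous_fderiv one_ne_zero).clm_apply continuous_const
  have hfs' : ∀ k, HasCompactSupport (fun x => fderiv ℝ (ff v) x (bv k)) := by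
    intro k
    exact hfs.fderiv_apply (𝕜 := ℝ) (bv k)
  have ha : ∀ k, Integrable (fun x => fderiv ℝ (ff v) x (bv k) * XX e k x) := fun k =>
    ((hf' k).mul (hX k)).integrable_of_hasCompactSupport (hfs' k).mul_right
  have hb : ∀ k, Integrable (fun x => ff v x * fderiv ℝ (XX e k) x (bv k)) := fun k =>
    (hfcont.mul (hX' k)).integrable_of_hasCompactSupport hfs.mul_right
  have hcI : ∀ k, Integrable (fun x => ff v x * XX e k x) := fun k =>
    (hfcont.mul (hX k)).integrable_of_hasCompactSupport hfs.mul_right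
  have hparts : ∀ k, ∫ x, ff v x * fderiv ℝ (XX e k) x (bv k) =
      -∫ x, fderiv ℝ (ff v) x (bv k) * XX e k x := fun k =>
    integral_mul_fderiv_eq_neg_fderiv_mul_of_integrable (ha k) (hb k) (hcI k)
      (fun x _ => (hfc.differentiable one_ne_zero) x)
      (fun x _ => ((XX_contDiff he k).differentiable one_ne_zero) x)
  have h1 : ∫ x, ff v x * (‖x‖ ^ 2 + e)⁻¹ ≤
      ∫ x, ∑ k : Fin 3, ff v x * fderiv ℝ (XX e k) x (bv k) := by
    refine integral_mono hI1 (integrable_finset_sum _ fun k _ => hb k) fun x => ?_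
    simp only
    rw [← Finset.mul_sum]
    have h10 : 0 ≤ ff v x := by unfold ff; positivity
    exact mul_le_mul_of_nonneg_left (div_ge he x) h10
  have h2 : ∫ x, ∑ k : Fin 3, ff v x * fderiv ℝ (XX e k) x (bv k) =
      ∫ x, -∑ k : Fin 3, fderiv ℝ (ff v) x (bv k) * XX e k x := by
    rw [integral_finset_sum _ fun k _ => hb k, integral_neg,
      integral_finset_sum _ fun k _ => ha k, ← Finset.sum_neg_distrib]
    exact Finset.sum_congr rfl fun k _ => hparts k
  have h3 : ∫ x, -∑ k : Fin 3, fderiv ℝ (ff v) x (bv k) * XX e k x ≤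
      ∫ x, ((1 / 2) * (ff v x * (‖x‖ ^ 2 + e)⁻¹) + 2 * g3 v x) := by
    refine integral_mono (integrable_finset_sum _ fun k _ => ha k).neg
      ((hI1.const_mul _).add (hI2.const_mul _)) fun x => ?_
    exact pointwise hv he x
  rw [integral_add (hI1.const_mul _) (hI2.const_mul _), integral_const_mul, integral_const_mul] at h3
  linarith

theorem hardy : S_HARDY := by
  intro v hv hc
  set I := ∫ x, g3 v x with hI
  have hfcont : Continuous (ff v) := (ff_contDiff hv).continuous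
  have hf0 : ∀ x, 0 ≤ ff v x := fun x => by unfold ff; positivity
  have hmeas : Measurable (fun x : E3 => ‖v x‖ ^ 2 / ‖x‖ ^ 2) :=
    hfcont.measurable.div (measurable_norm.pow_const 2)
  have hnn : ∀ x : E3, 0 ≤ ‖v x‖ ^ 2 / ‖x‖ ^ 2 := fun x => by positivity
  set en : ℕ → ℝ := fun n => 1 / ((n : ℝ) + 1) with hen
  have hen0 : ∀ n, 0 < en n := fun n => by rw [hen]; positivity
  have hent : Tendsto en atTop (𝓝 0) := tendsto_one_div_add_atTop_nhds_zero_nat
  have hbound : ∀ n, ∫⁻ x, ENNReal.ofReal (ff v x * (‖x‖ ^ 2 + en n)⁻¹) ≤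
      ENNReal.ofReal (4 * I) := by
    intro n
    obtain ⟨h1, h2⟩ := hardy_e hv hc (hen0 n)
    rw [← ofReal_integral_eq_lintegral_ofReal h1 (Eventually.of_forall fun x => by
      have := den_pos (hen0 n) x
      have := hf0 x
      positivity)]
    exact ENNReal.ofReal_le_ofReal h2
  have hlim : ∀ x : E3, ENNReal.ofReal (‖v x‖ ^ 2 / ‖x‖ ^ 2) ≤
      liminf (fun n => ENNReal.ofReal (ff v x * (‖x‖ ^ 2 + en n)⁻¹)) atTop := by
    intro x
    rcases eq_or_ne x 0 with rfl | hx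
    · simp
    · have hx2 : ‖x‖ ^ 2 ≠ 0 := by
        have := norm_pos_iff.2 hx
        positivity
      have h3 : Tendsto (fun n => ff v x * (‖x‖ ^ 2 + en n)⁻¹) atTop
          (𝓝 (ff v x * (‖x‖ ^ 2 + 0)⁻¹)) := by
        apply Tendsto.const_mul
        apply Tendsto.inv₀
        · exact tendsto_const_nhds.add hent
        · rwa [add_zero]
      have h4 := (ENNReal.continuous_ofReal.tendsto _).comp h3
      have h5 := h4.liminf_eq
      simp only [Function.comp_def] at h5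
      rw [h5, add_zero, div_eq_mul_inv]
      exact le_rfl
  have hfin : ∫⁻ x, ENNReal.ofReal (‖v x‖ ^ 2 / ‖x‖ ^ 2) ≤ ENNReal.ofReal (4 * I) := by
    refine (lintegral_mono hlim).trans ((lintegral_liminf_le fun n => ?_).trans ?_)
    · apply ENNReal.measurable_ofReal.comp
      exact hfcont.measurable.mul ((measurable_norm.pow_const 2).add_const _).inv
    · refine liminf_le_of_frequently_le' (Frequently.of_forall fun n => hbound n)
  have hint : Integrable (fun x : E3 => ‖v x‖ ^ 2 / ‖x‖ ^ 2) := by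
    refine ⟨hmeas.aestronglyMeasurable, ?_⟩
    rw [hasFiniteIntegral_iff_ofReal (Eventually.of_forall hnn)]
    exact hfin.trans_lt ENNReal.ofReal_lt_top
  refine ⟨hint, ?_⟩
  have hI0 : 0 ≤ 4 * I := by
    have : 0 ≤ I := integral_nonneg fun x => g3_nonneg v x
    linarith
  rw [← ENNReal.ofReal_le_ofReal_iff hI0,
    ofReal_integral_eq_lintegral_ofReal hint (Eventually.of_forall hnn)]
  exact hfin

/-- a smooth cut-off function -/
noncomputable def bmp (r R : ℝ) (h0 : 0 < r) (h1 : r < R) : ContDiffBump (0 : E3) := ⟨r, R, h0, h1⟩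

theorem inv : S_INV := by
  have h1 : ∀ R : ℝ, IntegrableOn (fun x : E3 => (‖x‖ ^ 2)⁻¹) (ball 0 R) := by
    intro R
    set φ := bmp (|R| + 1) (|R| + 2) (by positivity) (by linarith) with hφ
    have hv : ContDiff ℝ 1 (fun x : E3 => ((φ x : ℝ) : ℂ)) :=
      Complex.ofRealCLM.contDiff.comp φ.contDiff
    have hc : HasCompactSupport (fun x : E3 => ((φ x : ℝ) : ℂ)) :=
      φ.hasCompactSupport.comp_left (g := fun t : ℝ => (t : ℂ)) (by simp)
    have h2 := (hardy _ hv hc).1.integrableOn (s := ball 0 R)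
    refine h2.congr_fun (fun x hx => ?_) measurableSet_ball
    have h3 : φ x = 1 := by
      apply φ.one_of_mem_closedBall
      rw [mem_closedBall, dist_zero_right]
      rw [mem_ball, dist_zero_right] at hx
      have : φ.rIn = |R| + 1 := rfl
      rw [this]
      have := le_abs_self R
      linarith
    simp only [h3]
    simp
  refine ⟨h1, fun R => ?_⟩
  have h2 : ball (0 : E3 × E3) R = ball (0 : E3) R ×ˢ ball (0 : E3) R := by
    rw [ball_prod_same]; rfl
  rw [h2, IntegrableOn, Measure.volume_eq_prod, ← Measure.prod_restrict]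
  have hfin : IsFiniteMeasure ((volume : Measure E3).restrict (ball 0 R)) :=
    ⟨by rw [Measure.restrict_apply_univ]; exact measure_ball_lt_top⟩
  exact (h1 R).comp_fst _

theorem hl : S_HL := by
  intro τ hτ
  set φ := bmp (τ / 2) τ (by positivity) (by linarith) with hφ
  have hφr : φ.rIn = τ / 2 := rfl
  have hφR : φ.rOut = τ := rfl
  have hφd : ContDiff ℝ 1 φ := φ.contDiff
  have hφ0 : ∀ x : E3, x ∉ ball (0 : E3) τ → φ x = 0 := by
    intro x hx
    have := φ.support_eq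
    rw [hφR] at this
    by_contra h
    exact hx (this ▸ h)
  have hφ' : ∀ x : E3, x ∉ ball (0 : E3) τ → fderiv ℝ φ x = 0 := by
    intro x hx
    apply IsLocalMin.fderiv_eq_zero
    refine Eventually.of_forall fun y => ?_
    rw [hφ0 x hx]
    exact φ.nonneg
  obtain ⟨M, hM⟩ : ∃ M, ∀ x, ‖fderiv ℝ φ x‖ ≤ M :=
    (hφd.continuous_fderiv one_ne_zero).bounded_above_of_compact_support
      (φ.hasCompactSupport.fderiv ℝ)
  have hM0 : 0 ≤ M := (norm_nonneg _).trans (hM 0)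
  refine ⟨24 * M ^ 2, by positivity, fun u hu => ?_⟩
  set v : E3 → ℂ := fun x => ((φ x : ℝ) : ℂ) * u x with hv
  have hφc : ContDiff ℝ 1 (fun x : E3 => ((φ x : ℝ) : ℂ)) := Complex.ofRealCLM.contDiff.comp hφd
  have hvd : ContDiff ℝ 1 v := hφc.mul hu
  have hvc : HasCompactSupport v := by
    have : HasCompactSupport (fun x : E3 => ((φ x : ℝ) : ℂ)) :=
      φ.hasCompactSupport.comp_left (g := fun t : ℝ => (t : ℂ)) (by simp)
    exact this.mul_right
  obtain ⟨hI, hH⟩ := hardy v hvd hvc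
  -- the derivative of the product
  have hder : ∀ x h, fderiv ℝ v x h = ((φ x : ℝ) : ℂ) * fderiv ℝ u x h +
      ((fderiv ℝ φ x h : ℝ) : ℂ) * u x := by
    intro x h
    have h1 : HasFDerivAt (fun x : E3 => ((φ x : ℝ) : ℂ))
        (Complex.ofRealCLM.comp (fderiv ℝ φ x)) x :=
      Complex.ofRealCLM.hasFDerivAt.comp x ((hφd.differentiable one_ne_zero) x).hasFDerivAt
    have h2 := h1.mul ((hu.differentiable one_ne_zero) x).hasFDerivAt
    have h3 : HasFDerivAt v _ x := h2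
    rw [h3.fderiv]
    simp only [ContinuousLinearMap.add_apply, ContinuousLinearMap.smul_apply, smul_eq_mul,
      ContinuousLinearMap.comp_apply, Complex.ofRealCLM_apply]
    ring
  have hout : ∀ x, x ∉ ball (0 : E3) τ → g3 v x = 0 := by
    intro x hx
    unfold g3
    refine Finset.sum_eq_zero fun k _ => ?_
    rw [hder, hφ0 x hx, hφ' x hx]
    simp
  have hin : ∀ x, g3 v x ≤ 2 * g3 u x + 6 * M ^ 2 * ‖u x‖ ^ 2 := by
    intro x
    have h1 : ∀ k : Fin 3, ‖fderiv ℝ v x (bv k)‖ ^ 2 ≤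
        2 * ‖fderiv ℝ u x (bv k)‖ ^ 2 + 2 * M ^ 2 * ‖u x‖ ^ 2 := by
      intro k
      rw [hder]
      have h2 : ‖((φ x : ℝ) : ℂ) * fderiv ℝ u x (bv k)‖ ≤ ‖fderiv ℝ u x (bv k)‖ := by
        rw [norm_mul, Complex.norm_real, Real.norm_eq_abs, abs_of_nonneg φ.nonneg]
        exact mul_le_of_le_one_left (norm_nonneg _) φ.le_one
      have h3 : ‖((fderiv ℝ φ x (bv k) : ℝ) : ℂ) * u x‖ ≤ M * ‖u x‖ := by
        rw [norm_mul, Complex.norm_real]
        gcongr
        calc ‖fderiv ℝ φ x (bv k)‖ ≤ ‖fderiv ℝ φ x‖ * ‖bv k‖ :=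
              ContinuousLinearMap.le_opNorm _ _
          _ ≤ M := by rw [norm_bv, mul_one]; exact hM x
      have h4 := norm_add_le (((φ x : ℝ) : ℂ) * fderiv ℝ u x (bv k))
        (((fderiv ℝ φ x (bv k) : ℝ) : ℂ) * u x)
      have h5 : ‖((φ x : ℝ) : ℂ) * fderiv ℝ u x (bv k) +
          ((fderiv ℝ φ x (bv k) : ℝ) : ℂ) * u x‖ ≤ ‖fderiv ℝ u x (bv k)‖ + M * ‖u x‖ := by
        linarith
      calc _ ≤ (‖fderiv ℝ u x (bv k)‖ + M * ‖u x‖) ^ 2 := by gcongr
        _ ≤ _ := by nlinarith [sq_nonneg (‖fderiv ℝ u x (bv k)‖ - M * ‖u x‖)]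
    calc g3 v x = ∑ k : Fin 3, ‖fderiv ℝ v x (bv k)‖ ^ 2 := rfl
      _ ≤ ∑ k : Fin 3, (2 * ‖fderiv ℝ u x (bv k)‖ ^ 2 + 2 * M ^ 2 * ‖u x‖ ^ 2) :=
          Finset.sum_le_sum fun k _ => h1 k
      _ = 2 * g3 u x + 6 * M ^ 2 * ‖u x‖ ^ 2 := by
          rw [Finset.sum_add_distrib, ← Finset.mul_sum, Finset.sum_const, Finset.card_fin]
          unfold g3
          simp only [nsmul_eq_mul]
          push_cast
          ring
  have hon : ∀ {f : E3 → ℝ}, Continuous f → IntegrableOn f (ball (0 : E3) τ) := by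
    intro f hf
    exact (hf.continuousOn.integrableOn_compact (isCompact_closedBall (0 : E3) τ)).mono_set
      ball_subset_closedBall
  have hgu := hon (g3_cont hu)
  have huu : IntegrableOn (fun x => ‖u x‖ ^ 2) (ball (0 : E3) τ) := hon (hu.continuous.norm.pow 2)
  have e1 : ∫ x, g3 v x = ∫ x in ball (0 : E3) τ, g3 v x := by
    rw [setIntegral_eq_integral_of_forall_compl_eq_zero hout]
  have e2 : ∫ x in ball (0 : E3) τ, g3 v x ≤
      2 * (∫ x in ball (0 : E3) τ, g3 u x) + 6 * M ^ 2 * ∫ x in ball (0 : E3) τ, ‖u x‖ ^ 2 := by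
    calc ∫ x in ball (0 : E3) τ, g3 v x ≤
          ∫ x in ball (0 : E3) τ, (2 * g3 u x + 6 * M ^ 2 * ‖u x‖ ^ 2) :=
          integral_mono (hon (g3_cont hvd)) ((hgu.const_mul _).add (huu.const_mul _)) hin
      _ = _ := by
          rw [integral_add (hgu.const_mul _) (huu.const_mul _), integral_const_mul,
            integral_const_mul]
  have e3 : ∫ x in ball (0 : E3) (τ / 2), ‖u x‖ ^ 2 / ‖x‖ ^ 2 ≤ ∫ x, ‖v x‖ ^ 2 / ‖x‖ ^ 2 := by
    have h1 : ∫ x in ball (0 : E3) (τ / 2), ‖u x‖ ^ 2 / ‖x‖ ^ 2 =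
        ∫ x in ball (0 : E3) (τ / 2), ‖v x‖ ^ 2 / ‖x‖ ^ 2 := by
      refine setIntegral_congr_fun measurableSet_ball fun x hx => ?_
      have h3 : φ x = 1 := by
        apply φ.one_of_mem_closedBall
        rw [hφr]
        exact ball_subset_closedBall hx
      simp only [hv, h3]
      simp
    rw [h1]
    exact setIntegral_le_integral hI (Eventually.of_forall fun x => by positivity)
  linarith

end Pool.Agent.W705.TWB
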